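import Pool.Agent.Y924.UF.Stm3

/-! # Project UF, third part: the codes of the basic formulas are primitive recursive -/

set_option autoImplicit false

namespace Pool.Agent.Y431.UF

open Pool.Agent.Y924.EL Pool.Agent.Y924.UF

theorem prim_left {f : ℕ → ℕ} (hf : Primrec f) : Primrec fun s => (f s).unpair.1 :=
  Primrec.fst.comp (Primrec.unpair.comp hf)

theorem prim_right {f : ℕ → ℕ} (hf : Primrec f) : Primrec fun s => (f s).unpair.2 :=
  Primrec.snd.comp (Primrec.unpair.comp hf)

theorem prim_pair {f g : ℕ → ℕ} (hf : Primrec f) (hg : Primrec g) :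
    Primrec fun s => Nat.pair (f s) (g s) :=
  Primrec₂.natPair.comp hf hg

theorem prim_comp5 (i : Fin 5) : Primrec (comp5 i) := by
  have h0 : Primrec fun s : ℕ => s := Primrec.id
  fin_cases i
  · exact prim_left h0
  · exact prim_left (prim_right h0)
  · exact prim_left (prim_right (prim_right h0))
  · exact prim_left (prim_right (prim_right (prim_right h0)))
  · exact prim_right (prim_right (prim_right (prim_right h0)))

theorem prim_cd (τ : Tp) : Primrec τ.cd := by
  induction τ with
  | hole i => exact prim_comp5 i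
  | atom φ => exact Primrec.const φ.code
  | neg τ ih => exact prim_pair (Primrec.const 5) ih
  | and τ υ ih1 ih2 => exact prim_pair (Primrec.const 6) (prim_pair ih1 ih2)
  | ex i τ ih => exact prim_pair (Primrec.const 7) (prim_pair (Primrec.const i) ih)

theorem comp5_st (h : Fin 5 → Fm) (i : Fin 5) : comp5 i (st h) = (h i).code := by
  fin_cases i <;> simp [comp5, st]

theorem code_inst (h : Fin 5 → Fm) (τ : Tp) : (τ.inst h).code = τ.cd (st h) := by
  induction τ with
  | hole i => exact (comp5_st h i).symm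
  | atom φ => rfl
  | neg τ ih => simp only [Tp.inst, Fm.code, Tp.cd, ih]
  | and τ υ ih1 ih2 => simp only [Tp.inst, Fm.code, Tp.cd, ih1, ih2]
  | ex i τ ih => simp only [Tp.inst, Fm.code, Tp.cd, ih]

theorem prim_sgB (V a : ℕ) {f : ℕ → ℕ} (hf : Primrec f) : Primrec fun m => sgB V (f m) a := by
  by_cases h : a = 0
  · simp only [sgB, h, if_true]
    exact Primrec.const 0
  · simp only [sgB, h, if_false]
    exact Primrec.nat_add.comp (Primrec.nat_add.comp (Primrec.const 100)
      (Primrec.nat_mul.comp (Primrec.const V) hf)) (Primrec.const a)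

theorem prim_ren (V : ℕ) (φ : Fm) {f : ℕ → ℕ} (hf : Primrec f) :
    Primrec fun m => (ren (sgB V (f m)) φ).code := by
  have c : ∀ n : ℕ, Primrec fun _ : ℕ => n := fun n => Primrec.const n
  induction φ with
  | eq i j => exact prim_pair (c 0) (prim_pair (prim_sgB V i hf) (prim_sgB V j hf))
  | one i => exact prim_pair (c 1) (prim_sgB V i hf)
  | add i j k =>
    exact prim_pair (c 2) (prim_pair (prim_sgB V i hf)
      (prim_pair (prim_sgB V j hf) (prim_sgB V k hf)))
  | mul i j k =>
    exact prim_pair (c 3) (prim_pair (prim_sgB V i hf)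
      (prim_pair (prim_sgB V j hf) (prim_sgB V k hf)))
  | val i => exact prim_pair (c 4) (prim_sgB V i hf)
  | neg φ ih => exact prim_pair (c 5) ih
  | and φ ψ ih1 ih2 => exact prim_pair (c 6) (prim_pair ih1 ih2)
  | ex i φ ih => exact prim_pair (c 7) (prim_pair (prim_sgB V i hf) ih)

theorem st_hh (V : ℕ) (φ : Fm) (i j k : ℕ) : st (hh V φ i j k) =
    Nat.pair (ren (sgB V i) φ).code (Nat.pair (ren (sgB V j) φ).code
      (Nat.pair (ren (sgB V k) φ).code (Nat.pair (Fm.one 0).code (Fm.one 0).code))) := rfl

theorem t_CMPA : Pool.Agent.Y924.UF.S_CMPB → Pool.Agent.Y924.UF.S_CMPA := by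
  rintro ⟨h1, h2, -⟩ τ V φ
  have e : ∀ i j k, (bas τ V φ i j k).code = exRc 0 100 (τ.cd (st (hh V φ i j k))) := by
    intro i j k
    unfold bas
    rw [h1, code_inst]
  have h0 : Primrec fun s : ℕ => s := Primrec.id
  have hp : Primrec fun m : ℕ =>
      st (hh V φ m.unpair.1 m.unpair.2.unpair.1 m.unpair.2.unpair.2) := by
    simp only [st_hh]
    exact prim_pair (prim_ren V φ (prim_left h0)) (prim_pair
      (prim_ren V φ (prim_left (prim_right h0))) (prim_pair
      (prim_ren V φ (prim_right (prim_right h0))) (Primrec.const _)))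
  have hq := (h2 0 100).comp ((prim_cd τ).comp hp)
  refine hq.of_eq fun m => ?_
  exact (e _ _ _).symm

end Pool.Agent.Y431.UF
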